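import Mathlib
import Pool.Agent.Y676.IS.Stm
import Pool.Agent.TH841.NO.Qul

/-!
# IS-LQU and IS-SQF: the classes which are locally trivial everywhere are in the set `SQ`

`Pool.Agent.Y500.IS.lqu : Pool.Agent.Y676.IS.S_LQU` and `Pool.Agent.Y500.IS.sqf :
Pool.Agent.Y676.IS.S_SQF`. The divisibility `d ∣ A B` is read off from the parity of the valuations;
the quartic conditions come from `QUL` and the two torsion classes.
-/

set_option autoImplicit false

namespace Pool.Agent.Y500.IS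

open Pool.Agent.TH841.LS (LocI)

open Pool.Agent.TH841.NO (Qu SQ QUL)

theorem sqv {p : ℕ} [hp : Fact p.Prime] {s : ℚ_[p]} : (s ^ 2).valuation = 2 * s.valuation := by
  by_cases hs : s = 0
  · subst hs
    simp
  · rw [Padic.valuation_pow]
    push_cast
    ring

theorem val_dvd {p : ℕ} [hp : Fact p.Prime] {d : ℤ} (hd : Squarefree d) (hpd : (p : ℤ) ∣ d) :
    ((d : ℤ) : ℚ_[p]).valuation = 1 := by
  rw [Padic.valuation_intCast]
  have h0 : d ≠ 0 := hd.ne_zero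
  have h1 : padicValInt p d = 1 := by
    apply le_antisymm
    · by_contra h
      push Not at h
      have h2 : (p : ℤ) ^ 2 ∣ d := by
        rw [padicValInt_dvd_iff]
        exact Or.inr h
      rw [pow_two] at h2
      exact (Nat.prime_iff_prime_int.1 hp.out).not_isUnit (hd _ h2)
    · have h2 : (p : ℤ) ^ 1 ∣ d := by simpa using hpd
      rw [padicValInt_dvd_iff] at h2
      rcases h2 with h2 | h2
      · exact absurd h2 h0
      · exact h2
  rw [h1]
  rfl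

theorem val_ndvd {p : ℕ} [hp : Fact p.Prime] {a : ℤ} (hpa : ¬ (p : ℤ) ∣ a) :
    ((a : ℤ) : ℚ_[p]).valuation = 0 := by
  rw [Padic.valuation_intCast]
  have h1 : padicValInt p a = 0 := by
    by_contra h
    apply hpa
    have h2 : (p : ℤ) ^ 1 ∣ a := by
      rw [padicValInt_dvd_iff]
      exact Or.inr (Nat.one_le_iff_ne_zero.2 h)
    simpa using h2
  rw [h1]
  rfl

theorem norm_ndvd {p : ℕ} [hp : Fact p.Prime] {a : ℤ} (hpa : ¬ (p : ℤ) ∣ a) :
    ‖((a : ℤ) : ℚ_[p])‖ = 1 := by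
  have h0 : ((a : ℤ) : ℚ_[p]) ≠ 0 := by
    intro h
    apply hpa
    have : a = 0 := by exact_mod_cast h
    rw [this]
    exact dvd_zero _
  rw [Padic.norm_eq_zpow_neg_valuation h0, val_ndvd hpa]
  simp

theorem val_sub {p : ℕ} [hp : Fact p.Prime] {a : ℤ} (hpa : ¬ (p : ℤ) ∣ a) {X : ℚ_[p]}
    (hX : X ≠ 0) (hv : X.valuation ≠ 0) :
    X - (a : ℚ_[p]) ≠ 0 ∧ (0 < X.valuation → (X - (a : ℚ_[p])).valuation = 0) ∧
      (X.valuation < 0 → (X - (a : ℚ_[p])).valuation = X.valuation) := by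
  have hp1 : (1 : ℝ) < p := by exact_mod_cast hp.out.one_lt
  have hna := norm_ndvd hpa
  have hnX := Padic.norm_eq_zpow_neg_valuation hX
  have hne : ‖X‖ ≠ ‖((a : ℤ) : ℚ_[p])‖ := by
    rw [hna, hnX]
    intro h
    have h2 : ((p : ℝ)) ^ (-X.valuation) = (p : ℝ) ^ (0 : ℤ) := by rw [h, zpow_zero]
    have h3 := zpow_right_injective₀ (by linarith) (by linarith [hp1]) h2
    exact hv (by linarith [h3] )
  have hmax : ‖X - (a : ℚ_[p])‖ = max ‖X‖ ‖((a : ℤ) : ℚ_[p])‖ := by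
    rw [sub_eq_add_neg, Padic.add_eq_max_of_ne (by rwa [norm_neg]), norm_neg]
  have hne0 : X - (a : ℚ_[p]) ≠ 0 := by
    intro h
    rw [h, norm_zero, hna] at hmax
    have := le_max_right ‖X‖ (1 : ℝ)
    linarith
  refine ⟨hne0, fun h => ?_, fun h => ?_⟩
  · have h1 : ‖X‖ < 1 := by
      rw [hnX]
      exact zpow_lt_one_of_neg₀ hp1 (by linarith)
    rw [hna, max_eq_right h1.le, Padic.norm_eq_zpow_neg_valuation hne0] at hmax
    have h2 : ((p : ℝ)) ^ (-(X - (a : ℚ_[p])).valuation) = (p : ℝ) ^ (0 : ℤ) := by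
      rw [hmax, zpow_zero]
    have h3 := zpow_right_injective₀ (by linarith) (by linarith [hp1]) h2
    linarith [h3]
  · have h1 : 1 < ‖X‖ := by
      rw [hnX]
      exact one_lt_zpow₀ hp1 (by linarith)
    rw [hna, max_eq_left h1.le, Padic.norm_eq_zpow_neg_valuation hne0, hnX] at hmax
    have h3 := zpow_right_injective₀ (by linarith) (by linarith [hp1]) hmax
    linarith [h3]

theorem bad {p : ℕ} [hp : Fact p.Prime] {A B d : ℤ} (hd : Squarefree d) (hpd : (p : ℤ) ∣ d)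
    (hA : ¬ (p : ℤ) ∣ A) (hB : ¬ (p : ℤ) ∣ B)
    (h : IsSquare (d : ℚ_[p]) ∨ IsSquare ((d : ℚ_[p]) * (A * B)) ∨ LocI ℚ_[p] A B d) : False := by
  have hvd := val_dvd hd hpd
  have hd0 : ((d : ℤ) : ℚ_[p]) ≠ 0 := by exact_mod_cast hd.ne_zero
  have hA0 : ((A : ℤ) : ℚ_[p]) ≠ 0 := by
    intro h
    apply hA
    have : A = 0 := by exact_mod_cast h
    rw [this]
    exact dvd_zero _
  have hB0 : ((B : ℤ) : ℚ_[p]) ≠ 0 := by
    intro h
    apply hB
    have : B = 0 := by exact_mod_cast h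
    rw [this]
    exact dvd_zero _
  rcases h with ⟨s, hs⟩ | ⟨s, hs⟩ | ⟨X, Y, r, hX, hY, hr⟩
  · rw [← pow_two] at hs
    rw [hs, sqv] at hvd
    omega
  · rw [← pow_two] at hs
    have h1 : ((d : ℚ_[p]) * (A * B)).valuation = 1 := by
      rw [Padic.valuation_mul hd0 (mul_ne_zero hA0 hB0), Padic.valuation_mul hA0 hB0, hvd,
        val_ndvd hA, val_ndvd hB]
      rfl
    rw [hs, sqv] at h1
    omega
  · have hr0 : r ≠ 0 := by
      rintro rfl
      apply hX
      rw [hr]; ring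
    have hvX : X.valuation = 1 + 2 * r.valuation := by
      rw [hr, Padic.valuation_mul hd0 (pow_ne_zero 2 hr0), hvd, sqv]
    have hv0 : X.valuation ≠ 0 := by omega
    obtain ⟨hA1, hA2, hA3⟩ := val_sub hA hX hv0
    obtain ⟨hB1, hB2, hB3⟩ := val_sub hB hX hv0
    have h1 := congrArg Padic.valuation hY
    rw [sqv, Padic.valuation_mul (mul_ne_zero hX hA1) hB1, Padic.valuation_mul hX hA1] at h1
    rcases lt_or_gt_of_ne hv0 with h | h
    · rw [hA3 h, hB3 h] at h1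
      omega
    · rw [hA2 h, hB2 h] at h1
      omega

theorem dvd_of_sqf {d m : ℤ} (hd : Squarefree d)
    (h : ∀ p : ℕ, p.Prime → (p : ℤ) ∣ d → (p : ℤ) ∣ m) : d ∣ m := by
  rw [← Int.natAbs_dvd_natAbs]
  have h1 : Squarefree d.natAbs := Int.squarefree_natAbs.2 hd
  rw [← Nat.prod_primeFactors_of_squarefree h1]
  refine Finset.prod_primes_dvd _ (fun p hp => (Nat.prime_of_mem_primeFactors hp).prime)
    (fun p hp => ?_)
  have h2 := h p (Nat.prime_of_mem_primeFactors hp)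
    (Int.natCast_dvd.2 (Nat.dvd_of_mem_primeFactors hp))
  exact Int.natCast_dvd.1 h2

theorem quof {K : Type} [Field K] {A B d : ℤ} (hd0 : (d : K) ≠ 0) (hdZ : d ≠ 0)
    (hdiv : d ∣ A * B) (hq : LocI K A B d → Qu K (-(A + B)) (A * B) d)
    (h : IsSquare (d : K) ∨ IsSquare ((d : K) * (A * B)) ∨ LocI K A B d) :
    Qu K (-(A + B)) (A * B) d := by
  rcases h with ⟨s, hs⟩ | ⟨s, hs⟩ | h
  · refine ⟨s, 1, 0, Or.inl one_ne_zero, ?_⟩
    rw [pow_two, ← hs]
    ring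
  · obtain ⟨c, hc⟩ := hdiv
    have hcc : A * B / d = c := by rw [hc]; exact Int.mul_ediv_cancel_left c hdZ
    have hcK : (A : K) * B = d * c := by exact_mod_cast congrArg (fun z : ℤ => (z : K)) hc
    refine ⟨s / d, 0, 1, Or.inr one_ne_zero, ?_⟩
    rw [hcc, div_pow, pow_two s, ← hs, hcK]
    field_simp
    ring
  · exact hq h

theorem lqu_core (hqul : QUL) (A B d : ℤ) (hA : A ≠ 0) (hB : B ≠ 0) (hAB : A ≠ B)
    (hd : Squarefree d)
    (hR : IsSquare (d : ℝ) ∨ IsSquare ((d : ℝ) * (A * B)) ∨ LocI ℝ A B d)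
    (hp : ∀ (p : ℕ) [Fact p.Prime], IsSquare (d : ℚ_[p]) ∨ IsSquare ((d : ℚ_[p]) * (A * B)) ∨
      LocI ℚ_[p] A B d) : d ∈ SQ (-(A + B)) (A * B) := by
  have hd0 := hd.ne_zero
  have hdiv : d ∣ A * B := by
    refine dvd_of_sqf hd (fun p pp hpd => ?_)
    by_contra hn
    have : Fact p.Prime := ⟨pp⟩
    exact bad hd hpd (fun h => hn (dvd_mul_of_dvd_left h _)) (fun h => hn (dvd_mul_of_dvd_right h _))
      (hp p)
  obtain ⟨h1, h2⟩ := hqul A B d hA hB hAB hd0 hdiv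
  refine ⟨hd, hdiv, ?_, ?_⟩
  · exact quof (by exact_mod_cast hd0) hd0 hdiv h1.2 hR
  · intro p hpp
    exact quof (by exact_mod_cast hd0) hd0 hdiv (h2 p).2 (hp p)

/-- **IS-LQU** -/
theorem lqu : Pool.Agent.Y676.IS.S_LQU := by
  intro A B d hA hB hAB hd hR hp
  exact lqu_core Pool.Agent.TH841.NO.QULf.qul A B d hA hB hAB hd hR hp

/-- **IS-SQF** -/
theorem sqf : Pool.Agent.Y676.IS.S_SQF := fun _ _ hb => Pool.Agent.TH841.NO.sq_finite hb

end Pool.Agent.Y500.IS
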